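import Mathlib

/-!
# An ultrafilter with basic Tukey reductions is a p-point

Idea of the proof. Let `A n` be sets in `U` without pseudo-intersection in `U`. We may assume that
`A n` is decreasing with empty intersection; let `p x` be the least `n` with `x ∉ A n`, and let
`V = p(U)`, which is nonprincipal. The map `f : X ↦ p '' X` from `U` to `V` is monotone and cofinal.
Assume that it is basic on a cofinal subset `𝒟` of `U`, and let `k m` be the corresponding sequence.
The set `{x | x < k (p x + 1)}` is a pseudo-intersection of the `A n`, so it is not in `U`. Hence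
some `X ∈ 𝒟` is contained in `{x | k (p x + 1) ≤ x}`. Let `a` be the least element of `f X`. Then
`X` has no element below `k (a + 1)`, although `a` is in `f X`. So `a` is in `f Y` for every `Y ∈ 𝒟`
with no element below `k (a + 1)`. But some of these `Y` are contained in `{x | a < p x}`.
-/

namespace Pool.Agent.Results.MP_1c3dfa_lc.BasicImpliesPPoint

open Set Filter

/-- An ultrafilter on `ω` is nonprincipal if it contains no singleton. -/
def Nonprincipal (U : Ultrafilter ℕ) : Prop := ∀ n : ℕ, {n} ∉ U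

/-- `𝒟` is a cofinal subset of the directed set `(U, ⊇)`. -/
def IsCofinalIn (U : Ultrafilter ℕ) (𝒟 : Set (Set ℕ)) : Prop :=
  (∀ X ∈ 𝒟, X ∈ U) ∧ ∀ Y ∈ U, ∃ X ∈ 𝒟, X ⊆ Y

/-- `f` is a cofinal map from `U` to `V` (the values of `f` outside of `U` are irrelevant): it maps
`U` to `V` and cofinal subsets of `U` to cofinal subsets of `V`. -/
def IsCofinalMap (U V : Ultrafilter ℕ) (f : Set ℕ → Set ℕ) : Prop :=
  (∀ X ∈ U, f X ∈ V) ∧ ∀ 𝒟, IsCofinalIn U 𝒟 → IsCofinalIn V (f '' 𝒟)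

/-- `f` is monotone on the family `𝒟`: if `X ⊇ Y` then `f X ⊇ f Y`. -/
def IsMonotoneOn (f : Set ℕ → Set ℕ) (𝒟 : Set (Set ℕ)) : Prop :=
  ∀ X ∈ 𝒟, ∀ Y ∈ 𝒟, Y ⊆ X → f Y ⊆ f X

/-- `V` is Tukey reducible to `U`. -/
def TukeyLE (V U : Ultrafilter ℕ) : Prop := ∃ f, IsCofinalMap U V f

/-- The number `m`, as the set `{0, ..., m - 1}`. -/
def seg (m : ℕ) : Set ℕ := {x | x < m}

/-- The set `d s` of a finite sequence `s` of zeros and ones. -/
def d (s : List Bool) : Set ℕ := {i | s[i]? = some true}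

/-- `a` is an initial segment of `X`, in increasing enumeration. -/
def InitialSegment (a X : Set ℕ) : Prop := a ⊆ X ∧ ∀ x ∈ X, ∀ y ∈ a, x ≤ y → x ∈ a

/-- The set `D` of the finite sequences attached to `𝒟` and to the sequence `k`. -/
def Approx (𝒟 : Set (Set ℕ)) (k : ℕ → ℕ) : Set (List Bool) :=
  {s | ∃ m, s.length = k m ∧ ∃ X ∈ 𝒟, d s = X ∩ seg (k m)}

/-- The restriction to `𝒟` of the map `f` is basic. -/
def IsBasicOn (f : Set ℕ → Set ℕ) (𝒟 : Set (Set ℕ)) : Prop :=
  IsMonotoneOn f 𝒟 ∧ ∃ k : ℕ → ℕ, StrictMono k ∧ ∃ fhat : List Bool → List Bool,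
    (∀ s ∈ Approx 𝒟 k, ∀ m, s.length = k m → (fhat s).length = m) ∧
    (∀ s ∈ Approx 𝒟 k, ∀ s' ∈ Approx 𝒟 k, s <+: s' → fhat s <+: fhat s') ∧
    (∀ s ∈ Approx 𝒟 k, ∀ t ∈ Approx 𝒟 k, s.length = t.length → d s ⊆ d t →
      d (fhat s) ⊆ d (fhat t)) ∧
    ∀ X ∈ 𝒟, f X = ⋃ s ∈ {s | s ∈ Approx 𝒟 k ∧ InitialSegment (d s) X}, d (fhat s)

/-- `U` has basic Tukey reductions. -/
def HasBasicTukeyReductions (U : Ultrafilter ℕ) : Prop :=
  ∀ V : Ultrafilter ℕ, Nonprincipal V → ∀ f : Set ℕ → Set ℕ, IsMonotoneOn f {X | X ∈ U} →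
    IsCofinalMap U V f → ∃ 𝒟, IsCofinalIn U 𝒟 ∧ IsBasicOn f 𝒟

/-- `U` is a p-point: every sequence of sets in `U` has a pseudo-intersection in `U`. -/
def IsPPoint (U : Ultrafilter ℕ) : Prop :=
  ∀ A : ℕ → Set ℕ, (∀ n, A n ∈ U) → ∃ B ∈ U, ∀ n, (B \ A n).Finite

theorem mem_d {s : List Bool} {i : ℕ} : i ∈ d s ↔ s[i]? = some true := Iff.rfl

theorem lt_length_of_mem_d {s : List Bool} {i : ℕ} (h : i ∈ d s) : i < s.length := by
  by_contra hc
  rw [mem_d, List.getElem?_eq_none (not_lt.1 hc)] at h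
  exact absurd h (by simp)

theorem mem_d_of_prefix {s t : List Bool} (h : s <+: t) {i : ℕ} (hi : i < s.length) :
    i ∈ d s ↔ i ∈ d t := by
  rw [mem_d, mem_d]
  obtain ⟨u, rfl⟩ := h
  rw [List.getElem?_append_left hi]

open Classical in
/-- The characteristic sequence of length `n`. -/
noncomputable def chi (X : Set ℕ) (n : ℕ) : List Bool := List.ofFn fun i : Fin n => decide (i.1 ∈ X)

theorem length_chi (X : Set ℕ) (n : ℕ) : (chi X n).length = n := by simp [chi]

theorem mem_d_chi {X : Set ℕ} {n i : ℕ} : i ∈ d (chi X n) ↔ i ∈ X ∧ i < n := by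
  rw [mem_d]
  by_cases hi : i < n
  · rw [List.getElem?_eq_getElem (by rw [length_chi]; exact hi)]
    simp [chi, hi]
  · rw [List.getElem?_eq_none (by rw [length_chi]; exact not_lt.1 hi)]
    simp [hi]

theorem chi_prefix (X : Set ℕ) {m n : ℕ} (h : m ≤ n) : chi X m <+: chi X n := by
  rw [List.prefix_iff_eq_take]
  apply List.ext_getElem
  · simp [length_chi, h]
  · intro i h1 h2
    simp [chi]

theorem chi_mem {𝒟 : Set (Set ℕ)} {k : ℕ → ℕ} {X : Set ℕ} (hX : X ∈ 𝒟) (m : ℕ) :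
    chi X (k m) ∈ Approx 𝒟 k := by
  refine ⟨m, length_chi _ _, X, hX, ?_⟩
  ext i
  rw [mem_d_chi]
  rfl

/-- If `f` is basic on `𝒟`, then `f X ∩ m` is determined by `X ∩ k m`. -/
theorem exists_modulus {f : Set ℕ → Set ℕ} {𝒟 : Set (Set ℕ)} (h : IsBasicOn f 𝒟) :
    ∃ k : ℕ → ℕ, StrictMono k ∧ ∀ m, ∀ X ∈ 𝒟, ∀ Y ∈ 𝒟, chi X (k m) = chi Y (k m) →
      ∀ i < m, i ∈ f X → i ∈ f Y := by
  obtain ⟨-, k, hk, F, h1, h2, h3, h4⟩ := h
  have key : ∀ m, ∀ X ∈ 𝒟, ∀ i < m, i ∈ f X ↔ i ∈ d (F (chi X (k m))) := by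
    intro m X hX i hi
    constructor
    · intro h
      rw [h4 X hX] at h
      obtain ⟨s, ⟨hs, hsX⟩, his⟩ := mem_iUnion₂.1 h
      obtain ⟨m', hm', hex⟩ := hs
      have hs : s ∈ Approx 𝒟 k := ⟨m', hm', hex⟩
      have h5 : i ∈ d (F (chi X (k m'))) := by
        refine h3 s hs _ (chi_mem hX m') ?_ ?_ his
        · rw [length_chi, hm']
        · intro j hj
          rw [mem_d_chi]
          refine ⟨hsX.1 hj, ?_⟩
          rw [← hm']
          exact lt_length_of_mem_d hj
      have hlen' : (F (chi X (k m'))).length = m' := h1 _ (chi_mem hX m') m' (length_chi _ _)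
      have hlen : (F (chi X (k m))).length = m := h1 _ (chi_mem hX m) m (length_chi _ _)
      have him' : i < m' := by
        rw [← hlen']
        exact lt_length_of_mem_d h5
      rcases le_total m m' with h6 | h6
      · have h7 := h2 _ (chi_mem hX m) _ (chi_mem hX m') (chi_prefix X (hk.monotone h6))
        exact (mem_d_of_prefix h7 (by rw [hlen]; exact hi)).2 h5
      · have h7 := h2 _ (chi_mem hX m') _ (chi_mem hX m) (chi_prefix X (hk.monotone h6))
        exact (mem_d_of_prefix h7 (by rw [hlen']; exact him')).1 h5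
    · intro h
      rw [h4 X hX]
      refine mem_iUnion₂.2 ⟨chi X (k m), ⟨chi_mem hX m, ?_, ?_⟩, h⟩
      · intro j hj
        exact (mem_d_chi.1 hj).1
      · intro x hx y hy hxy
        rw [mem_d_chi] at hy ⊢
        exact ⟨hx, hxy.trans_lt hy.2⟩
  refine ⟨k, hk, fun m X hX Y hY hXY i hi h => ?_⟩
  rw [key m Y hY i hi, ← hXY, ← key m X hX i hi]
  exact h

theorem isPPoint_of_hasBasicTukeyReductions {U : Ultrafilter ℕ} (hU : Nonprincipal U)
    (h : HasBasicTukeyReductions U) : IsPPoint U := by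
  classical
  intro A hA
  by_contra hcon
  push Not at hcon
  -- all the cofinite sets are in `U`
  have hcof : ∀ n, {x : ℕ | n < x} ∈ U := by
    intro n
    induction n with
    | zero =>
      have h1 : ({0} : Set ℕ)ᶜ ∈ U := Ultrafilter.compl_mem_iff_notMem.2 (hU 0)
      refine mem_of_superset h1 fun x hx => ?_
      exact Nat.pos_of_ne_zero hx
    | succ n ih =>
      have h1 : ({n + 1} : Set ℕ)ᶜ ∈ U := Ultrafilter.compl_mem_iff_notMem.2 (hU (n + 1))
      refine mem_of_superset (inter_mem ih h1) ?_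
      rintro x ⟨hx, hx'⟩
      have h2 : x ≠ n + 1 := hx'
      have h3 : n < x := hx
      change n + 1 < x
      omega
  -- the decreasing sequence
  let B : ℕ → Set ℕ := fun n => {x | n < x ∧ ∀ i ≤ n, x ∈ A i}
  have hB : ∀ n, B n ∈ U := by
    intro n
    have h1 : ∀ᶠ x in (U : Filter ℕ), ∀ i ∈ Iic n, x ∈ A i :=
      (finite_Iic n).eventually_all.2 fun i _ => hA i
    exact inter_mem (hcof n) h1
  have hnot : ∀ x, ∃ n, x ∉ B n := fun x => ⟨x, fun h => absurd h.1 (lt_irrefl x)⟩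
  let p : ℕ → ℕ := fun x => Nat.find (hnot x)
  have hp : ∀ n x, x ∈ B n ↔ n < p x := by
    intro n x
    constructor
    · intro hx
      by_contra hlt
      have h1 : x ∉ B (p x) := Nat.find_spec (hnot x)
      apply h1
      have h2 : p x ≤ n := not_lt.1 hlt
      exact ⟨h2.trans_lt hx.1, fun i hi => hx.2 i (hi.trans h2)⟩
    · intro hx
      by_contra hnx
      exact absurd (Nat.find_min' (hnot x) hnx) (not_le.2 hx)
  -- the ultrafilter `V` and the map `f`
  let V : Ultrafilter ℕ := U.map p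
  have hV : ∀ n, {y : ℕ | n < y} ∈ V := by
    intro n
    rw [Ultrafilter.mem_map]
    refine mem_of_superset (hB n) fun x hx => ?_
    exact (hp n x).1 hx
  have hVnon : Nonprincipal V := by
    intro n hn
    have := inter_mem hn (hV n)
    have h2 : ({n} ∩ {y : ℕ | n < y} : Set ℕ) = ∅ := by
      rw [eq_empty_iff_forall_notMem]
      rintro x ⟨hx, hx'⟩
      rw [mem_singleton_iff] at hx
      subst hx
      exact absurd hx' (lt_irrefl x)
    rw [h2] at this
    exact V.empty_notMem this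
  have hmono : IsMonotoneOn (fun X => p '' X) {X | X ∈ U} :=
    fun X _ Y _ hYX => image_mono hYX
  have hmap : ∀ X ∈ U, p '' X ∈ V := by
    intro X hX
    rw [Ultrafilter.mem_map]
    exact mem_of_superset hX (subset_preimage_image p X)
  have hcofmap : IsCofinalMap U V (fun X => p '' X) := by
    refine ⟨hmap, fun 𝒟 h𝒟 => ⟨?_, ?_⟩⟩
    · rintro _ ⟨X, hX, rfl⟩
      exact hmap X (h𝒟.1 X hX)
    · intro Z hZ
      obtain ⟨X, hX, hXZ⟩ := h𝒟.2 (p ⁻¹' Z) (Ultrafilter.mem_map.1 hZ)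
      exact ⟨_, ⟨X, hX, rfl⟩, image_subset_iff.2 hXZ⟩
  obtain ⟨𝒟, h𝒟, hbasic⟩ := h V hVnon _ hmono hcofmap
  obtain ⟨k, hk, hmod⟩ := exists_modulus hbasic
  -- the set where `p` grows slowly is not in `U`
  have hslow : {x | x < k (p x + 1)} ∉ U := by
    intro hmem
    obtain ⟨n, hn⟩ := hcon _ hmem
    apply hn
    refine (finite_lt_nat (k (n + 1))).subset ?_
    rintro x ⟨hx, hx'⟩
    have h1 : ¬ n < p x := fun h2 => hx' (((hp n x).2 h2).2 n le_rfl)
    have h2 : k (p x + 1) ≤ k (n + 1) := hk.monotone (by omega)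
    exact lt_of_lt_of_le hx h2
  have hfast : {x | k (p x + 1) ≤ x} ∈ U := by
    refine mem_of_superset (Ultrafilter.compl_mem_iff_notMem.2 hslow) fun x hx => ?_
    change k (p x + 1) ≤ x
    by_contra h'
    exact hx (not_le.1 h')
  obtain ⟨X, hX, hXfast⟩ := h𝒟.2 _ hfast
  have hne : (p '' X).Nonempty :=
    (Ultrafilter.nonempty_of_mem (h𝒟.1 X hX)).image p
  let a := sInf (p '' X)
  have ha : a ∈ p '' X := Nat.sInf_mem hne
  obtain ⟨Y, hY, hYsub⟩ := h𝒟.2 _ (inter_mem (hcof (k (a + 1))) (hB a))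
  have hXY : chi X (k (a + 1)) = chi Y (k (a + 1)) := by
    have hempty : ∀ Z : Set ℕ, (∀ x ∈ Z, k (a + 1) ≤ x) →
        chi Z (k (a + 1)) = chi ∅ (k (a + 1)) := by
      intro Z hZ
      apply List.ext_getElem
      · simp [length_chi]
      · intro i hi hi'
        rw [length_chi] at hi
        have h1 : i ∉ Z := fun h2 => absurd (hZ i h2) (not_le.2 hi)
        simp [chi, h1]
    rw [hempty X, hempty Y]
    · intro x hx
      exact (hYsub hx).1.le
    · intro x hx
      have h1 : a ≤ p x := Nat.sInf_le ⟨x, hx, rfl⟩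
      have h2 : k (a + 1) ≤ k (p x + 1) := hk.monotone (by omega)
      exact h2.trans (hXfast hx)
  obtain ⟨y, hy, hya⟩ := hmod (a + 1) X hX Y hY hXY a (Nat.lt_succ_self a) ha
  have h1 : a < p y := (hp a y).1 (hYsub hy).2
  omega

theorem result : ∀ U : Ultrafilter ℕ, Nonprincipal U → HasBasicTukeyReductions U →
    IsPPoint U ∧ ∃ W : Ultrafilter ℕ, Nonprincipal W ∧ IsPPoint W ∧ TukeyLE U W := by
  intro U hU h
  have h1 := isPPoint_of_hasBasicTukeyReductions hU h
  refine ⟨h1, U, hU, h1, fun X => X, fun X hX => hX, fun 𝒟 h𝒟 => ?_⟩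
  rw [image_id']
  exact h𝒟

end Pool.Agent.Results.MP_1c3dfa_lc.BasicImpliesPPoint
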